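import Pool.Agent.H.MP_6fa8f6_an.B

set_option autoImplicit false
set_option linter.unusedSectionVars false

namespace Pool.Agent.H.MP_a0704c_an

open Filter Topology Set Pool.Agent.H.MP_6fa8f6_an

abbrev F (n : ℕ) := Bool × (Fin (2 * n) → Bool)

def sg (b : Bool) : ℝ := if b then -1 else 1

noncomputable def N (n : ℕ) : ℝ := Fintype.card (F n)

lemma N0 (n : ℕ) : 0 < N n := Nat.cast_pos.2 Fintype.card_pos

lemma had (n : ℕ) : ∃ H : F n → F n → Bool, (∑ c, ∑ d, sg (H c d) = 0) ∧ ∀ (x y : F n → ℝ) A B,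
    (∀ c, |x c| ≤ A) → (∀ d, |y d| ≤ B) →
      |∑ c, ∑ d, sg (H c d) * (x c * y d)| ≤ N n ^ 2 * (A * B / 2 ^ n) := by
  classical
  set h : (Fin (2 * n) → Bool) → (Fin (2 * n) → Bool) → ℝ := fun c d => ∏ i, sg (c i && d i)
  have o : ∀ c c', ∑ d, h c d * h c' d = if c = c' then 4 ^ n else 0 := fun c c' => by
    simp only [h, ← Finset.prod_mul_distrib]
    rw [← Fintype.piFinset_univ, ← Finset.prod_univ_sum (fun _ => Finset.univ)
      fun i b => sg (c i && b) * sg (c' i && b)]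
    split_ifs with k
    · rw [Finset.prod_congr rfl (g := fun _ => 2) fun i _ => by
        rw [← k]
        cases c i <;> norm_num [sg]]
      simp [pow_mul]
      norm_num
    · obtain ⟨i, hi⟩ := Function.ne_iff.1 k
      refine Finset.prod_eq_zero (Finset.mem_univ i) ?_
      cases h1 : c i <;> cases h2 : c' i <;> simp_all [sg]
  have s : ∀ (c d : F n), sg (xor c.1 (decide (h c.2 d.2 = -1))) = sg c.1 * h c.2 d.2 := fun c d => by
    have : h c.2 d.2 * h c.2 d.2 = 1 := by
      simp only [h, ← Finset.prod_mul_distrib]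
      exact Finset.prod_eq_one fun i _ => by cases (c.2 i && d.2 i) <;> simp [sg]
    rcases mul_self_eq_one_iff.1 this with k | k <;> cases c.1 <;> norm_num [k, sg]
  have e : ∀ x y : F n → ℝ, ∑ c, ∑ d, sg (xor c.1 (decide (h c.2 d.2 = -1))) * (x c * y d) =
      ∑ d, (y (true, d) + y (false, d)) * ∑ c, h c d * (x (false, c) - x (true, c)) := fun x y => by
    simp only [s, Fintype.sum_prod_type, Fintype.sum_bool, ← Finset.sum_add_distrib, Finset.mul_sum]
    rw [Finset.sum_comm]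
    refine Finset.sum_congr rfl fun _ _ => Finset.sum_congr rfl fun _ _ => ?_
    simp [sg]
    ring
  refine ⟨fun c d => xor c.1 (decide (h c.2 d.2 = -1)), by simpa using e 1 1,
    fun x y A B hx hy => ?_⟩
  have a0 : 0 ≤ A := (abs_nonneg _).trans (hx default)
  have b0 : 0 ≤ B := (abs_nonneg _).trans (hy default)
  have cd : (Fintype.card (Fin (2 * n) → Bool) : ℝ) = 4 ^ n := by
    simp [pow_mul]
  rw [e]
  refine abs_le_of_sq_le_sq' ((Finset.sum_mul_sq_le_sq_mul_sq _ _ _).trans ?_) (by positivity) |>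
    abs_le.2
  have a : ∑ d, (∑ c, h c d * (x (false, c) - x (true, c))) ^ 2 ≤ 4 ^ n * (4 ^ n * (4 * A ^ 2)) := by
    have : ∑ d, (∑ c, h c d * (x (false, c) - x (true, c))) ^ 2 =
        ∑ c, 4 ^ n * (x (false, c) - x (true, c)) ^ 2 := by
      simp only [sq, Finset.sum_mul_sum]
      rw [Finset.sum_comm]
      refine Finset.sum_congr rfl fun c _ => ?_
      rw [Finset.sum_comm]
      simp only [mul_mul_mul_comm (h c _), ← Finset.sum_mul, o]
      simp
    rw [this, ← cd, ← nsmul_eq_mul]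
    refine Finset.sum_le_card_nsmul _ _ _ fun c _ => mul_le_mul_of_nonneg_left ?_ (by positivity)
    nlinarith [abs_le.1 (hx (false, c)), abs_le.1 (hx (true, c))]
  have b : ∑ d, (y (true, d) + y (false, d)) ^ 2 ≤ 4 ^ n * (4 * B ^ 2) := by
    rw [← cd, ← nsmul_eq_mul]
    refine Finset.sum_le_card_nsmul _ _ _ fun c _ => ?_
    nlinarith [abs_le.1 (hy (false, c)), abs_le.1 (hy (true, c))]
  refine (mul_le_mul b a (by positivity) (by positivity)).trans (le_of_eq ?_)
  rw [N, Fintype.card_prod, Nat.cast_mul, cd, show (4 : ℝ) ^ n = 2 ^ n * 2 ^ n by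
    rw [← mul_pow]; norm_num]
  simp
  field_simp
  ring

variable {X Y : Type} [TopologicalSpace X] [TopologicalSpace Y] [CompactSpace X] [CompactSpace Y]

lemma sap {ι : Type} [Fintype ι] (w : ι → ℝ) (φ : ι → WeakDual ℝ C(X, ℝ)) (f : C(X, ℝ)) :
    (∑ i, w i • φ i) f = ∑ i, w i * φ i f :=
  _root_.sum_apply _ (fun i => w i • WeakDual.toStrongDual (φ i)) f

section
variable {S : Type} {ι : ℕ → Type} [∀ m, Fintype (ι m)] (lf : ℕ → S → WeakDual ℝ C(X, ℝ))
  (st : ∀ m, S → ι m → S) (w : ∀ m, ι m → ℝ)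

noncomputable def tr : ℕ → ℕ → S → WeakDual ℝ C(X, ℝ)
  | 0, m, s => lf m s
  | j + 1, m, s => ∑ c, w m c • tr j (m + 1) (st m s c)

variable {lf w} (h0 : ∀ m c, 0 ≤ w m c) (h1 : ∀ m, ∑ c, w m c = 1)
include h0 h1

lemma trs (h : ∀ m s, lf m s ∈ St X) (j m : ℕ) (s : S) : tr lf st w j m s ∈ St X := by
  induction j generalizing m s with
  | zero => exact h m s
  | succ j ih => exact ⟨by simp [tr, sap, (ih _ _).1, h1], fun f hf => by
      rw [tr, sap]
      exact Finset.sum_nonneg fun c _ => mul_nonneg (h0 m c) ((ih _ _).2 f hf)⟩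

lemma wle {m : ℕ} {a : ι m → ℝ} {r : ℝ} (h : ∀ c, w m c ≠ 0 → a c ≤ r) : ∑ c, w m c * a c ≤ r := by
  rw [← one_mul r, ← h1 m, Finset.sum_mul]
  refine Finset.sum_le_sum fun c _ => ?_
  by_cases k : w m c = 0
  exacts [by simp [k], mul_le_mul_of_nonneg_left (h c k) (h0 m c)]

lemma trl (P : ℕ → S → Prop) (hP : ∀ m s c, P m s → w m c ≠ 0 → P (m + 1) (st m s c)) (u : C(X, ℝ))
    (r : ℝ) (j m : ℕ) (s : S) (h : ∀ s, P (m + j) s → lf (m + j) s u ≤ r) (k : P m s) :
    tr lf st w j m s u ≤ r := by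
  induction j generalizing m s with
  | zero => exact h s k
  | succ j ih =>
    rw [tr, sap]
    exact wle h0 h1 fun c hc => ih _ _ (by rwa [add_right_comm]) (hP _ _ _ k hc)

lemma trd (u : C(X, ℝ)) (r : ℕ → ℝ) (h : ∀ m s, |tr lf st w 1 m s u - lf m s u| ≤ r m)
    (j m : ℕ) (s : S) : |tr lf st w (j + 1) m s u - tr lf st w j m s u| ≤ r (m + j) := by
  induction j generalizing m s with
  | zero => exact h m s
  | succ j ih =>
    rw [tr, tr, sap, sap, ← Finset.sum_sub_distrib]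
    refine (Finset.abs_sum_le_sum_abs _ _).trans ?_
    simp only [← mul_sub, abs_mul, abs_of_nonneg (h0 m _)]
    exact wle h0 h1 fun c _ => by simpa only [add_right_comm m 1, ← add_assoc] using ih (m + 1) (st m s c)

end

lemma ulim (f : ℕ → WeakDual ℝ C(X, ℝ)) (h : ∀ n, f n ∈ St X) :
    ∃ φ : St X, ∀ x, Tendsto (fun n => f n x) (hyperfilter ℕ) (𝓝 (φ.1 x)) := by
  obtain ⟨φ, h1, h2⟩ := St.compact.ultrafilter_le_nhds ((hyperfilter ℕ).map f)
    (le_principal_iff.2 (mem_map.2 (Eventually.of_forall h)))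
  exact ⟨⟨φ, h1⟩, fun x => ((ev x).tendsto φ).comp h2⟩

abbrev B := StoneCech ℕ
abbrev J := Π₀ n, F n

lemma phi : ∃ (ρ : C(B, B × ∀ n, F n)) (Φ : ℕ → J → C(B, St B)),
    (∀ m σ a x, (Φ m σ a).1 x = ∑ c, (N m)⁻¹ * (Φ (m + 1) (σ.update m c) a).1 x) ∧
    ∀ m σ a (w : C(B × ∀ n, F n, ℝ)) r, (∀ ω, (∀ n < m, ω n = σ n) → w (a, ω) ≤ r) →
      (Φ m σ a).1 (w.comp ρ) ≤ r := by
  obtain ⟨dec, hd⟩ := exists_surjective_nat (ℕ × J)
  choose enc he using hd
  have h0 : ∀ m (_ : F m), 0 ≤ (N m)⁻¹ := fun m _ => (inv_pos.2 (N0 m)).le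
  have h1 : ∀ m, ∑ _ : F m, (N m)⁻¹ = 1 := fun m => by
    rw [Finset.sum_const, nsmul_eq_mul]
    exact mul_inv_cancel₀ (N0 m).ne'
  choose φ hφ using fun m σ k => ulim (fun n => tr (fun _ σ => (dl (stoneCechUnit (enc (k, σ)))).1)
    (fun m (σ : J) c => σ.update m c) (fun m _ => (N m)⁻¹) (n - m) m σ) fun n =>
      trs _ h0 h1 (fun _ _ => Subtype.prop _) _ _ _
  have c : ∀ m σ (x : C(B, ℝ)), Continuous fun a =>
      (stoneCechExtend (continuous_of_discreteTopology (f := φ m σ)) a).1 x := fun m σ x =>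
    (ev x).comp (continuous_subtype_val.comp (continuous_stoneCechExtend _))
  refine ⟨⟨_, continuous_stoneCechExtend (continuous_of_discreteTopology
    (f := fun i => (stoneCechUnit (dec i).1, ⇑(dec i).2)))⟩, fun m σ => ⟨_, continuous_stoneCechExtend
      (continuous_of_discreteTopology (f := φ m σ))⟩, fun m σ a x => ?_, fun m σ a w r h => ?_⟩
  · refine denseRange_stoneCechUnit.induction_on a (isClosed_eq (c m σ x)
      (continuous_finsetSum _ fun _ _ => continuous_const.mul (c _ _ x))) fun k => ?_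
    simp only [ContinuousMap.coe_mk, stoneCechExtend_stoneCechUnit]
    refine tendsto_nhds_unique (hφ m σ k x) ((tendsto_finsetSum _ fun c _ =>
      (hφ _ _ k x).const_mul _).congr' ?_)
    filter_upwards [Nat.hyperfilter_le_atTop (eventually_gt_atTop m)] with n hn
    rw [show n - m = n - (m + 1) + 1 by omega, tr, sap]
  · refine le_of_forall_gt_imp_ge_of_dense fun t ht => le_of_not_gt fun hc => ?_
    have a1 := (IsClosed.isCompact (s := {ω : ∀ n, F n | ∀ n < m, ω n = σ n}) (by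
      simp only [ofPred_forall]
      exact isClosed_iInter fun n => isClosed_iInter fun _ => isClosed_eq (continuous_apply n)
        continuous_const)).eventually_forall_of_forall_eventually (x₀ := a)
      (P := fun a ω => w (a, ω) < t) fun ω hω =>
        w.continuous.continuousAt.eventually_lt_const ((h ω hω).trans_lt ht)
    obtain ⟨k, a2, a3⟩ := denseRange_stoneCechUnit.mem_nhds
      (a1.and ((c m σ _).continuousAt.eventually_const_lt hc))
    simp only [stoneCechExtend_stoneCechUnit] at a3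
    refine a3.not_ge (le_of_tendsto' (hφ m σ k _) fun n => trl _ h0 h1
      (fun m' σ' => m ≤ m' ∧ ∀ n < m, σ' n = σ n) (fun m' s c h _ => ⟨by omega, fun n hn => by
        rw [DFinsupp.coe_update, Function.update_of_ne (by omega), h.2 n hn]⟩) _ _ _ _ _
      (fun s hs => ?_) ⟨le_rfl, fun _ _ => rfl⟩)
    simpa [he] using (a2 s hs.2).le

end Pool.Agent.H.MP_a0704c_an
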