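import Pool.Agent.H.MP_a0704c_an.A

set_option autoImplicit false
set_option linter.unusedSectionVars false

namespace Pool.Agent.H.MP_a0704c_an

open Filter Topology Set Pool.Agent.H.MP_6fa8f6_an

variable {X Y : Type} [TopologicalSpace X] [TopologicalSpace Y] [CompactSpace X] [CompactSpace Y]
  [T2Space X] [T2Space Y]

noncomputable def hf (ψ : WeakDual ℝ C(Y, ℝ)) : C(X × Y, ℝ) →L[ℝ] C(X, ℝ) :=
  ((WeakDual.toStrongDual ψ).compLeftContinuous ℝ X).comp (σ₁₂ := .id ℝ)
    { toFun := ContinuousMap.curry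
      map_add' := fun _ _ => rfl
      map_smul' := fun _ _ => rfl
      cont := ContinuousMap.continuous_curry }

lemma hfa (ψ : WeakDual ℝ C(Y, ℝ)) (u : C(X × Y, ℝ)) (x : X) : hf ψ u x = ψ (u.curry x) := rfl

noncomputable def ten (φ : WeakDual ℝ C(X, ℝ)) (ψ : WeakDual ℝ C(Y, ℝ)) : WeakDual ℝ C(X × Y, ℝ) :=
  StrongDual.toWeakDual ((WeakDual.toStrongDual φ).comp (hf ψ))

lemma tna (φ : WeakDual ℝ C(X, ℝ)) (ψ : WeakDual ℝ C(Y, ℝ)) (u : C(X × Y, ℝ)) :
    ten φ ψ u = φ (hf ψ u) := rfl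

lemma tns (φ : St X) (ψ : St Y) : ten φ.1 ψ.1 ∈ St (X × Y) :=
  ⟨by rw [tna, show hf ψ.1 (1 : C(X × Y, ℝ)) = 1 from ContinuousMap.ext fun _ => ψ.2.1, φ.2.1],
    fun _ h => φ.2.2 _ fun _ => ψ.2.2 _ fun _ => h _⟩

lemma tnm (φ : WeakDual ℝ C(X, ℝ)) (ψ : WeakDual ℝ C(Y, ℝ)) (x : C(X, ℝ)) (y : C(Y, ℝ)) :
    ten φ ψ (x.prodMul y) = φ x * ψ y := by
  rw [tna, show hf ψ (x.prodMul y) = ψ y • x from ContinuousMap.ext fun a => by
    rw [hfa, show (x.prodMul y).curry a = x a • y from ContinuousMap.ext fun _ => by simp, map_smul]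
    simp [mul_comm], map_smul, smul_eq_mul, mul_comm]

abbrev D := ℕ → Bool

lemma main : ∃ (T : C(B × B × D, ℝ) →L[ℝ] C(B × B, ℝ)) (P : C(B × B, ℝ) →L[ℝ] C(B × B × D, ℝ)),
    ∀ v, P (T v) = v := by
  obtain ⟨ρ, Φ, p1, p2⟩ := phi
  choose H h1 h2 using had
  set w : D → ∀ m, F m × F m → ℝ := fun g m c => (1 + sg (g m) * sg (H m c.1 c.2)) / N m ^ 2
  have w0 : ∀ g m c, 0 ≤ w g m c := fun g m c => div_nonneg (by
    cases g m <;> cases H m c.1 c.2 <;> simp [sg]) (sq_nonneg _)
  have w1 : ∀ g m, ∑ c, w g m c = 1 := fun g m => by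
    have := (N0 m).ne'
    rw [Fintype.sum_prod_type]
    simp only [w, ← Finset.sum_div, Finset.sum_add_distrib, ← Finset.mul_sum, h1]
    simp only [Finset.sum_const, nsmul_eq_mul, Finset.card_univ]
    change (N m * (N m * 1) + _) / _ = _
    field_simp
    simp
  have w2 : ∀ g m c, w g m c ≠ 0 → H m c.1 c.2 = g m := fun g m c => by
    simp only [w]
    cases g m <;> cases H m c.1 c.2 <;> simp [sg]
  set lf : B × B × D → ℕ → J × J → WeakDual ℝ C(B × B, ℝ) := fun z m s =>
    ten (Φ m s.1 z.1).1 (Φ m s.2 z.2.1).1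
  set st : ∀ m, J × J → F m × F m → J × J := fun m s c => (s.1.update m c.1, s.2.update m c.2)
  choose β hβ using fun z => ulim (fun j => tr (lf z) st (w z.2.2) j 0 0) fun j =>
    trs _ (w0 _) (w1 _) (fun _ _ => tns _ _) _ _ _
  have c1 : ∀ (x y : C(B, ℝ)) j m s,
      Continuous fun z => tr (lf z) st (w z.2.2) j m s (x.prodMul y) := fun x y j => by
    induction j with
    | zero =>
      intro m s
      simp only [tr, lf, tnm]
      exact ((ev x).comp (by fun_prop)).mul ((ev y).comp (by fun_prop))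
    | succ j ih =>
      intro m s
      simp only [tr, sap]
      exact continuous_finsetSum _ fun c _ => ((continuous_of_discreteTopology
        (f := fun b => (1 + sg b * sg (H m c.1 c.2)) / N m ^ 2)).comp (by fun_prop)).mul (ih _ _)
  have c2 : ∀ x y : C(B, ℝ), Continuous fun z => (β z).1 (x.prodMul y) := fun x y => by
    have d : ∀ z n, dist (tr (lf z) st (w z.2.2) n 0 0 (x.prodMul y))
        (tr (lf z) st (w z.2.2) (n + 1) 0 0 (x.prodMul y)) ≤ 2 * (‖x‖ * ‖y‖) / 2 / 2 ^ n := fun z n => by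
      rw [dist_comm, mul_div_cancel_left₀ _ two_ne_zero]
      refine (trd _ (w0 _) (w1 _) _ (fun m => ‖x‖ * ‖y‖ / 2 ^ m) (fun m s => ?_) n 0 0).trans
        (by rw [zero_add])
      have := h2 m _ _ _ _ (fun c => St.abs (Φ (m + 1) (s.1.update m c) z.1).2 x)
        fun c => St.abs (Φ (m + 1) (s.2.update m c) z.2.1).2 y
      have n0 := N0 m
      rw [← div_le_iff₀' (by positivity)] at this
      refine le_trans (le_of_eq ?_) this
      simp only [tr, sap, lf, tnm, st]
      rw [p1 m s.1, p1 m s.2, Finset.sum_mul_sum, Fintype.sum_prod_type, ← Finset.sum_sub_distrib,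
        ← abs_of_pos (show 0 < N m ^ 2 by positivity), ← abs_div,
        ← one_mul |_ / _|, show (1 : ℝ) = |sg (z.2.2 m)| by cases z.2.2 m <;> simp [sg], ← abs_mul,
        Finset.sum_div, Finset.mul_sum]
      refine congrArg _ (Finset.sum_congr rfl fun c _ => ?_)
      rw [← Finset.sum_sub_distrib, Finset.sum_div, Finset.mul_sum]
      refine Finset.sum_congr rfl fun d _ => ?_
      simp only [w]
      field_simp
      ring
    refine continuous_of_uniform_approx_of_continuous fun u hu => ?_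
    obtain ⟨ε, e0, he⟩ := Metric.mem_uniformity_dist.1 hu
    obtain ⟨n, hn⟩ := ((tendsto_const_nhds (x := 2 * (‖x‖ * ‖y‖))).div_atTop
      (tendsto_pow_atTop_atTop_of_one_lt one_lt_two)).eventually_lt_const e0 |>.exists
    refine ⟨_, c1 x y n 0 0, fun z => he ?_⟩
    obtain ⟨l, hl⟩ := cauchySeq_tendsto_of_complete (cauchySeq_of_le_geometric_two (d z))
    rw [tendsto_nhds_unique (hβ z _) (hl.mono_left Nat.hyperfilter_le_atTop), dist_comm]
    exact (dist_le_of_le_geometric_two_of_tendsto (d z) hl n).trans_lt hn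
  have c3 : ∀ u, Continuous fun z => (β z).1 u := fun u => by
    have := CompactT2.Projective.extremallyDisconnected (StoneCech.projective (X := ℕ))
    refine continuous_of_uniform_approx_of_continuous fun U hu => ?_
    obtain ⟨ε, e0, he⟩ := Metric.mem_uniformity_dist.1 hu
    obtain ⟨_, ⟨t, rfl⟩, ht⟩ := Metric.mem_closure_iff.1 (ContinuousMap.denseRange_tensorHom u) ε e0
    refine ⟨fun z => (β z).1 (ContinuousMap.tensorHom t), ?_, fun z => he ?_⟩
    · clear ht
      induction t with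
      | zero => simpa using continuous_const
      | tmul x y => simpa using c2 x y
      | add x y a b =>
        simp only [map_add]
        exact a.add b
    · rw [Real.dist_eq, ← map_sub]
      exact (St.abs (β z).2 _).trans_lt (by rwa [← dist_eq_norm])
  let τ : C((B × ∀ n, F n) × B × ∀ n, F n, B × B × D) :=
    ⟨fun p => (p.1.1, p.2.1, fun n => H n (p.1.2 n) (p.2.2 n)), by
      refine .prodMk (by fun_prop) (.prodMk (by fun_prop) (continuous_pi fun n => ?_))
      exact (continuous_of_discreteTopology (f := fun c : F n × F n => H n c.1 c.2)).comp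
        (f := fun p : (B × ∀ n, F n) × B × ∀ n, F n => (p.1.2 n, p.2.2 n)) (by fun_prop)⟩
  have key : ∀ (v : C(B × B × D, ℝ)) z, (β z).1 (v.comp (τ.comp (ρ.prodMap ρ))) ≤ v z := fun v z => by
    refine le_of_forall_gt_imp_ge_of_dense fun r hr => le_of_tendsto (hβ z _) ?_
    have : ∀ᶠ g in 𝓝 z.2.2, v (z.1, z.2.1, g) < r :=
      (show Continuous fun g => v (z.1, z.2.1, g) by fun_prop).continuousAt.eventually_lt_const hr
    rw [nhds_pi] at this
    obtain ⟨I, i1, t, i2, i3⟩ := Filter.mem_pi.1 this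
    obtain ⟨m, hm⟩ := i1.bddAbove
    filter_upwards [Nat.hyperfilter_le_atTop (eventually_gt_atTop m)] with j hj
    refine trl _ (w0 _) (w1 _) (fun m s => ∀ n < m, H n (s.1 n) (s.2 n) = z.2.2 n)
      (fun m s c h k n hn => ?_) _ _ _ _ _ (fun s hs => ?_) (by simp)
    · simp only [st, DFinsupp.coe_update]
      rcases Nat.lt_succ_iff_lt_or_eq.1 hn with hn | rfl
      · rw [Function.update_of_ne hn.ne, Function.update_of_ne hn.ne, h n hn]
      · simpa using w2 _ _ _ k
    · refine p2 _ s.1 z.1 (hf (Φ _ s.2 z.2.1).1 (v.comp (τ.comp ((ContinuousMap.id _).prodMap ρ)))) r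
        fun ω hω => p2 _ s.2 z.2.1 ((v.comp τ).curry (z.1, ω)) r fun ω' hω' =>
          le_of_lt (i3 fun n hn => ?_)
      have : n < 0 + j := by simpa using (hm hn).trans_lt hj
      simp only [hω n this, hω' n this, hs n this]
      exact mem_of_mem_nhds (i2 n)
  refine ⟨cp (τ.comp (ρ.prodMap ρ)), LinearMap.mkContinuous
    { toFun := fun f => ⟨_, c3 f⟩
      map_add' := fun _ _ => ContinuousMap.ext fun x => map_add (β x).1 _ _
      map_smul' := fun _ _ => ContinuousMap.ext fun x => map_smul (β x).1 _ _ } 1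
      fun f => by
        rw [one_mul]
        exact (ContinuousMap.norm_le _ (norm_nonneg _)).2 fun x => St.abs (β x).2 f, fun v =>
    ContinuousMap.ext fun z => le_antisymm (key v z) ?_⟩
  have := key (-v) z
  rw [ContinuousMap.neg_comp, map_neg] at this
  exact neg_le_neg_iff.1 this

end Pool.Agent.H.MP_a0704c_an
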