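import Pool.Agent.H.MP_a0704c_an.B

set_option autoImplicit false
set_option linter.unusedSectionVars false

namespace Pool.Agent.H.MP_a0704c_an

open Filter Topology Set Pool.Agent.H.MP_6fa8f6_an OnePoint

noncomputable def hiso {X Y : Type} [TopologicalSpace X] [TopologicalSpace Y] [CompactSpace X]
    [CompactSpace Y] (h : X ≃ₜ Y) : C(Y, ℝ) ≃L[ℝ] C(X, ℝ) :=
  .equivOfInverse (cp h) (cp h.symm) (fun f => by ext; simp) fun f => by ext; simp

lemma hom : Nonempty (OnePoint ℕ ≃ₜ SS ℕ) := by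
  classical
  set f : OnePoint ℕ → SS ℕ := fun a => ⟨fun n => decide (a = n), fun i j a b => by
    simpa using (of_decide_eq_true a).symm.trans (of_decide_eq_true b)⟩
  refine ⟨Continuous.homeoOfEquivCompactToT2 (f := .ofBijective f ⟨fun a b h => ?_, fun s => ?_⟩)
    ((continuous_iff_from_nat f).2 (tendsto_subtype_rng.2 (tendsto_pi_nhds.2 fun n =>
      tendsto_const_nhds.congr' ?_)))⟩
  · have := fun n => congrFun (congrArg Subtype.val h) n
    cases a with
    | infty =>
      cases b with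
      | infty => rfl
      | coe b => simpa [f] using this b
    | coe a => simpa [f, eq_comm] using this a
  · by_cases h : ∃ n, s.1 n
    · obtain ⟨n, h⟩ := h
      refine ⟨n, Subtype.ext (funext fun m => ?_)⟩
      by_cases k : n = m
      · simpa [f, k] using k ▸ h
      · simpa [f, k] using fun k' => k (s.2 _ _ h k')
    · exact ⟨∞, Subtype.ext (funext fun m => by simpa [f] using fun k => h ⟨m, k⟩)⟩
  · filter_upwards [eventually_gt_atTop n] with m hm
    simp [f, hm.ne']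

lemma isos : Nonempty (C(B × B × D, ℝ) ≃L[ℝ] C(OnePoint ℕ × B × B, ℝ)) ∧
    Nonempty (C(B × B, ℝ) ≃L[ℝ] C(OnePoint ℕ × B × B, ℝ)) := by
  obtain ⟨T, P, h⟩ := main
  obtain ⟨k⟩ := hom
  obtain ⟨r, r1, -, r2⟩ := PiNat.exists_retraction_subtype_of_isClosed
    (isCompact_iff_compactSpace.2 (inferInstanceAs (CompactSpace (SS ℕ)))).isClosed ⟨_, (k ∞).2⟩
  set E := cp (⟨fun z => (r z.2.2, z.1, z.2.1), by fun_prop⟩ : C(B × B × D, SS ℕ × B × B))
  set R := cp (⟨fun z => (z.2.1, z.2.2, z.1.1), by fun_prop⟩ : C(SS ℕ × B × B, B × B × D))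
  have : ∀ x, R (E x) = x := fun x => ContinuousMap.ext fun z => by simp [R, E, r1]
  obtain ⟨a⟩ := pel (Denumerable.eqv (Option ℕ)).symm T P h E R this
  obtain ⟨b⟩ := pel (Denumerable.eqv (Option ℕ)).symm (.id ℝ _) (.id ℝ _) (fun _ => rfl) (T ∘L E)
    (R ∘L P) (by simp [h, this])
  exact ⟨⟨a.trans (hiso (k.prodCongr (.refl _)))⟩, ⟨b.trans (hiso (k.prodCongr (.refl _)))⟩⟩

noncomputable def e (n : ℕ) : C(OnePoint ℕ, ℝ) :=
  continuousMapMkNat (Pi.single n 1) 0 (tendsto_const_nhds.congr' (by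
    filter_upwards [eventually_gt_atTop n] with m hm
    simp [hm.ne']))

lemma esum (a : ℕ → ℝ) (T : Finset ℕ) :
    (∑ n ∈ T, a n • e n) ∞ = 0 ∧ ∀ m : ℕ, (∑ n ∈ T, a n • e n) m = if m ∈ T then a m else 0 := by
  have h1 : ∀ n, e n ∞ = 0 := fun _ => rfl
  have h2 : ∀ n m : ℕ, e n m = (Pi.single n 1 : ℕ → ℝ) m := fun _ _ => rfl
  simp [ContinuousMap.sum_apply, h1, h2, Pi.single_apply]

lemma hs (f : C(OnePoint ℕ, ℝ)) : HasSum (fun n : ℕ => (f n - f ∞) • e n) (f - f ∞ • 1) := by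
  refine Metric.tendsto_atTop.2 fun ε hε => ?_
  obtain ⟨N, hN⟩ := Metric.tendsto_atTop.1 ((continuous_iff_from_nat f).1 f.continuous) ε hε
  refine ⟨Finset.range N, fun T hT => (ContinuousMap.dist_lt_iff hε).2 fun x => ?_⟩
  cases x with
  | infty => simpa [(esum _ T).1]
  | coe m =>
    rw [(esum _ T).2]
    split_ifs with h
    · simpa
    · simpa [← dist_eq_norm, dist_comm] using hN m (not_lt.1 fun k => h (hT (Finset.mem_range.2 k)))

lemma noiso (T : C(OnePoint ℕ, ℝ) ≃L[ℝ] C(D, ℝ)) : False := by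
  classical
  have : Countable (OnePoint ℕ) := inferInstanceAs (Countable (Option ℕ))
  set C := ‖(T.symm : C(D, ℝ) →L[ℝ] C(OnePoint ℕ, ℝ))‖
  have b : ∀ n x, |T.symm (mon {n}) x| ≤ C := fun n x => (ContinuousMap.norm_coe_le_norm _ x).trans
    (((T.symm : C(D, ℝ) →L[ℝ] C(OnePoint ℕ, ℝ)).le_opNorm _).trans (mul_le_of_le_one_right
      (norm_nonneg _) ((ContinuousMap.norm_le _ zero_le_one).2 fun σ => by
        cases h : σ n <;> simp [mon_apply, h])))
  obtain ⟨G, -, ψ, h1, h2⟩ := (isCompact_univ_pi fun _ => isCompact_Icc (a := -C) (b := C)).tendsto_subseq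
    (x := fun n => ⇑(T.symm (mon {n}))) fun n x _ => abs_le.1 (b n x)
  set φ := ContinuousMap.evalCLM ℝ (fun n => decide (∃ k, Even k ∧ ψ k = n)) ∘L
    (T : C(OnePoint ℕ, ℝ) →L[ℝ] C(D, ℝ))
  have s : Summable fun n => |φ (e n)| := summable_of_sum_le (c := ‖φ‖) (fun _ => abs_nonneg _)
    fun F => by
    have : ∑ n ∈ F, |φ (e n)| = φ (∑ n ∈ F, (SignType.sign (φ (e n)) : ℝ) • e n) := by
      simp [map_sum, sign_mul_self]
    rw [this]
    refine (le_abs_self _).trans ((φ.le_opNorm _).trans (mul_le_of_le_one_right (norm_nonneg _)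
      ((ContinuousMap.norm_le _ zero_le_one).2 fun x => ?_)))
    cases x with
    | infty => simp [(esum _ F).1]
    | coe m =>
      rw [(esum _ F).2]
      split_ifs
      · cases SignType.sign (φ (e m)) <;> simp
      · simp
  have r : ∀ f, φ f = f ∞ * φ 1 + ∑' n : ℕ, (f n - f ∞) * φ (e n) := fun f => by
    have := (φ.hasSum (hs f)).tsum_eq
    simp only [_root_.map_smul, map_sub, smul_eq_mul] at this
    rw [this]
    ring
  have t := fun x => tendsto_pi_nhds.1 h2 x
  have l := ((t ∞).mul_const (φ 1)).add (tendsto_tsum_of_dominated_convergence (s.mul_left (2 * C))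
    (fun n : ℕ => ((t n).sub (t ∞)).mul_const (φ (e n))) (.of_forall fun k n => by
      rw [norm_mul]
      exact mul_le_mul_of_nonneg_right ((norm_sub_le _ _).trans ((add_le_add (b (ψ k) n)
        (b (ψ k) ∞)).trans (two_mul C).ge)) (norm_nonneg _)))
  simp only [Function.comp_apply, ← r] at l
  have v : ∀ k, φ (T.symm (mon {ψ k})) = if Even k then 1 else 0 := fun k => by
    simp [φ, mon_apply, h1.injective.eq_iff]
  simp only [v] at l
  obtain ⟨N, hN⟩ := Metric.cauchySeq_iff'.1 l.cauchySeq 1 one_pos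
  have := hN (N + 1) N.le_succ
  by_cases k : Even N <;> simp [Nat.even_add_one, k] at this

end Pool.Agent.H.MP_a0704c_an
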